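import Pool.Agent.helper34.NTA.Spec

set_option autoImplicit false
set_option linter.unusedSectionVars false

namespace Pool.Agent.NTA

open Equiv

section

variable {H : Type} [Group H] [Finite H] {s : ZMod 10 → H} {sg : H →* ℤˣ}

theorem GFA_inc_inl (hG : Grp H s sg) (h : H) (e : EE sg) :
    (GH hG).inc (Sum.inl h) e ↔ ∃ c, ee hG h c = e := by
  constructor
  · rintro ⟨i, hi1, hi2⟩
    rcases i with ⟨h', c⟩ | ⟨h', c, hc⟩
    · have h1 : (Sum.inl h' : VV sg) = Sum.inl h := hi1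
      have h2 : h' = h := Sum.inl.inj h1
      subst h2
      exact ⟨c, hi2⟩
    · have h1 : (Sum.inr (yy hG h' c hc) : VV sg) = Sum.inl h := hi1
      exact absurd h1 Sum.inr_ne_inl
  · rintro ⟨c, hc⟩
    exact ⟨Sum.inl (h, c), rfl, hc⟩

theorem GFA_inc_inr (hG : Grp H s sg) (y : YY sg) (e : EE sg) :
    (GH hG).inc (Sum.inr y) e ↔ ∃ h c hc, ee hG h c = e ∧ yy hG h c hc = y := by
  constructor
  · rintro ⟨i, hi1, hi2⟩
    rcases i with ⟨h', c⟩ | ⟨h', c, hc⟩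
    · have h1 : (Sum.inl h' : VV sg) = Sum.inr y := hi1
      exact absurd h1 Sum.inl_ne_inr
    · have h1 : (Sum.inr (yy hG h' c hc) : VV sg) = Sum.inr y := hi1
      exact ⟨h', c, hc, hi2, Sum.inr.inj h1⟩
  · rintro ⟨h, c, hc, h1, h2⟩
    refine ⟨Sum.inr (h, ⟨c, hc⟩), ?_, h1⟩
    change (Sum.inr (yy hG h c hc) : VV sg) = Sum.inr y
    rw [h2]

theorem GFA_ee_eq (hG : Grp H s sg) (h h' : H) (c c' : ZMod 10) (he : ee hG h c = ee hG h' c') :
    c = c' ∧ (h' = h ∨ ¬ KL c ∧ h' = h * s c) := by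
  have h1 : c = c' := by rw [← ee_snd hG h c, ← ee_snd hG h' c', he]
  subst h1
  refine ⟨rfl, ?_⟩
  by_cases hc : KL c
  · rw [ee_K hG h c hc, ee_K hG h' c hc] at he
    have h3 : (h, c) = (h', c) := congrArg Subtype.val he
    left
    exact (congrArg Prod.fst h3).symm
  · rw [ee_R hG h c hc, ee_R hG h' c hc] at he
    have h3 : (nrm s sg h c, c) = (nrm s sg h' c, c) := congrArg Subtype.val he
    rcases nrm_eq hG h h' c (congrArg Prod.fst h3) with h4 | h4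
    · exact Or.inl h4
    · exact Or.inr ⟨hc, h4⟩

theorem GFA_nb_K (hG : Grp H s sg) (h : H) (c : ZMod 10) (hc : KL c) : nb hG h c = Sum.inr (yy hG h c hc) := by
  unfold nb
  rw [dif_pos hc]

theorem GFA_nb_R (hG : Grp H s sg) (h : H) (c : ZMod 10) (hc : ¬ KL c) : nb hG h c = Sum.inl (h * s c) := by
  unfold nb
  rw [dif_neg hc]

theorem GFA_nb_inc (hG : Grp H s sg) (h : H) (c : ZMod 10) : (GH hG).inc (nb hG h c) (ee hG h c) := by
  by_cases hc : KL c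
  · rw [GFA_nb_K hG h c hc]
    exact (GFA_inc_inr hG _ _).2 ⟨h, c, hc, rfl, rfl⟩
  · rw [GFA_nb_R hG h c hc]
    exact (GFA_inc_inl hG _ _).2 ⟨c, ee_mul hG h c hc⟩

theorem GFA_ne_nb (hG : Grp H s sg) (h : H) (c : ZMod 10) : (Sum.inl h : VV sg) ≠ nb hG h c := by
  by_cases hc : KL c
  · rw [GFA_nb_K hG h c hc]
    exact Sum.inl_ne_inr
  · rw [GFA_nb_R hG h c hc]
    intro h1
    exact mul_s_ne hG h c (Sum.inl.inj h1).symm

theorem GFA_s_inj (hG : Grp H s sg) (c c' : ZMod 10) (h : s c = s c') : c = c' := by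
  by_contra hne
  have h1 : (([c, c'] : List (ZMod 10)).map s).prod = 1 := by
    simp only [List.map_cons, List.map_nil, List.prod_cons, List.prod_nil, mul_one]
    rw [h, hG.inv]
  have h2 : ([c, c'] : List (ZMod 10)).IsChain (· ≠ ·) := by
    simp [hne]
  have h3 : ([c, c'] : List (ZMod 10)).head? ≠ ([c, c'] : List (ZMod 10)).getLast? := by
    simp [hne]
  have h4 : 45 * kn [c, c'] + rn [c, c'] ≤ 224 := by
    have h5 : kn [c, c'] ≤ 2 := List.countP_le_length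
    have h6 : rn [c, c'] ≤ 2 := List.countP_le_length
    omega
  obtain ⟨d, hd | hd⟩ := hG.cls _ h1 h2 h3 h4
  · have h7 := congrArg List.length hd
    simp [alt] at h7
  · have h7 := congrArg List.length hd
    simp [alt] at h7

theorem GFA_nb_inj (hG : Grp H s sg) (h : H) (c c' : ZMod 10) (he : nb hG h c = nb hG h c') : c = c' := by
  by_cases hc : KL c
  · by_cases hc' : KL c'
    · rw [GFA_nb_K hG h c hc, GFA_nb_K hG h c' hc'] at he
      exact (yy_eq hG h h c c' hc hc' (Sum.inr.inj he)).1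
    · rw [GFA_nb_K hG h c hc, GFA_nb_R hG h c' hc'] at he
      exact absurd he Sum.inr_ne_inl
  · by_cases hc' : KL c'
    · rw [GFA_nb_R hG h c hc, GFA_nb_K hG h c' hc'] at he
      exact absurd he Sum.inl_ne_inr
    · rw [GFA_nb_R hG h c hc, GFA_nb_R hG h c' hc'] at he
      exact GFA_s_inj hG c c' (mul_left_cancel (Sum.inl.inj he))

theorem GFA_adj (hG : Grp H s sg) (h : H) (y : VV sg) (hy : Sum.inl h ≠ y) (e : EE sg)
    (h1 : (GH hG).inc (Sum.inl h) e) (h2 : (GH hG).inc y e) : ∃ c, ee hG h c = e ∧ y = nb hG h c := by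
  obtain ⟨c, hc⟩ := (GFA_inc_inl hG h e).1 h1
  refine ⟨c, hc, ?_⟩
  rcases y with h' | y
  · obtain ⟨c', hc'⟩ := (GFA_inc_inl hG h' e).1 h2
    obtain ⟨h3, h4⟩ := GFA_ee_eq hG h h' c c' (hc.trans hc'.symm)
    rcases h4 with h4 | ⟨h4, h5⟩
    · exact absurd (congrArg Sum.inl h4.symm) hy
    · rw [GFA_nb_R hG h c h4, h5]
  · obtain ⟨h', c', hc', h3, h4⟩ := (GFA_inc_inr hG y e).1 h2
    obtain ⟨h5, h6⟩ := GFA_ee_eq hG h h' c c' (hc.trans h3.symm)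
    subst h5
    rcases h6 with h6 | ⟨h6, _⟩
    · subst h6
      rw [GFA_nb_K hG h' c hc', h4]
    · exact absurd hc' h6

theorem GFA_m_ne (hG : Grp H s sg) (x y : VV sg) (h : (GG hG).m x y ≠ 0) :
    x ≠ y ∧ ∃ e : EE sg, (GH hG).inc x e ∧ (GH hG).inc y e := by
  unfold GG HGraph.Adj at h
  by_cases hxy : x = y
  · exact absurd (if_pos hxy) h
  · refine ⟨hxy, ?_⟩
    have h1 : Nat.card {e : (GH hG).E // (GH hG).inc x e ∧ (GH hG).inc y e} ≠ 0 := by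
      intro h2
      apply h
      exact (if_neg hxy).trans h2
    obtain ⟨h2, -⟩ := Nat.card_ne_zero.1 h1
    obtain ⟨e, he⟩ := h2
    exact ⟨e, he⟩

theorem GFA_m_nb (hG : Grp H s sg) (h : H) (c : ZMod 10) : (GG hG).m (Sum.inl h) (nb hG h c) = 1 := by
  have h0 := GFA_ne_nb hG h c
  have h1 : (GG hG).m (Sum.inl h) (nb hG h c) =
      Nat.card {e : (GH hG).E // (GH hG).inc (Sum.inl h) e ∧ (GH hG).inc (nb hG h c) e} := by
    unfold GG HGraph.Adj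
    exact if_neg h0
  rw [h1, Nat.card_eq_one_iff_unique]
  have key : ∀ e : EE sg, (GH hG).inc (Sum.inl h) e → (GH hG).inc (nb hG h c) e → e = ee hG h c := by
    intro e h2 h3
    obtain ⟨c', h4, h5⟩ := GFA_adj hG h _ h0 e h2 h3
    rw [GFA_nb_inj hG h c c' h5]
    exact h4.symm
  constructor
  · constructor
    rintro ⟨e, he1, he2⟩ ⟨e', he1', he2'⟩
    apply Subtype.ext
    change e = e'
    exact (key e he1 he2).trans (key e' he1' he2').symm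
  · exact ⟨⟨ee hG h c, (GFA_inc_inl hG h _).2 ⟨c, rfl⟩, GFA_nb_inc hG h c⟩⟩

theorem GFA_four (hG : Grp H s sg) (h : H) (y : VV sg) (hm : (GG hG).m (Sum.inl h) y ≠ 0) :
    ∃ c, y = nb hG h c := by
  obtain ⟨h1, e, h2, h3⟩ := GFA_m_ne hG _ _ hm
  obtain ⟨c, -, h4⟩ := GFA_adj hG h y h1 e h2 h3
  exact ⟨c, h4⟩

theorem GFA_five (hG : Grp H s sg) (h : H) (c : ZMod 10) (hc : KL c) (x : VV sg)
    (hm : (GG hG).m (Sum.inr (yy hG h c hc)) x ≠ 0) : x = Sum.inl h ∨ x = Sum.inl (h * s c) := by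
  obtain ⟨h1, e, h2, h3⟩ := GFA_m_ne hG _ _ hm
  obtain ⟨h', c', hc', h4, h5⟩ := (GFA_inc_inr hG _ _).1 h2
  obtain ⟨h6, h7⟩ := yy_eq hG h h' c c' hc hc' h5.symm
  subst h6
  rcases x with h'' | y
  · obtain ⟨c'', h8⟩ := (GFA_inc_inl hG _ _).1 h3
    obtain ⟨h9, h10⟩ := GFA_ee_eq hG h' h'' c c'' (h4.trans h8.symm)
    rcases h10 with h10 | ⟨h10, _⟩
    · subst h10
      rcases h7 with h7 | h7
      · left; rw [h7]
      · right; rw [h7]
    · exact absurd hc h10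
  · obtain ⟨h'', c'', hc'', h8, h9⟩ := (GFA_inc_inr hG _ _).1 h3
    obtain ⟨h10, h11⟩ := GFA_ee_eq hG h' h'' c c'' (h4.trans h8.symm)
    subst h10
    rcases h11 with h11 | ⟨h11, _⟩
    · subst h11
      exfalso
      apply h1
      rw [← h5, ← h9]
    · exact absurd hc h11

theorem GFA_A1 (hG : Grp H s sg) (h h' : H) (hm : (GG hG).m (Sum.inl h) (Sum.inl h') ≠ 0) :
    ∃ c, ¬ KL c ∧ h' = h * s c := by
  obtain ⟨c, hc⟩ := GFA_four hG h _ hm
  by_cases hK : KL c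
  · rw [GFA_nb_K hG h c hK] at hc
    exact absurd hc Sum.inl_ne_inr
  · rw [GFA_nb_R hG h c hK] at hc
    exact ⟨c, hK, Sum.inl.inj hc⟩

theorem GFA_A2 (hG : Grp H s sg) (h : H) (y : YY sg) (hm : (GG hG).m (Sum.inl h) (Sum.inr y) ≠ 0) :
    ∃ c hc, y = yy hG h c hc := by
  obtain ⟨c, hc⟩ := GFA_four hG h _ hm
  by_cases hK : KL c
  · rw [GFA_nb_K hG h c hK] at hc
    exact ⟨c, hK, Sum.inr.inj hc⟩
  · rw [GFA_nb_R hG h c hK] at hc
    exact absurd hc Sum.inr_ne_inl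

theorem GFA_A3 (hG : Grp H s sg) (y y' : YY sg) (hm : (GG hG).m (Sum.inr y) (Sum.inr y') ≠ 0) : False := by
  obtain ⟨h, c, hc, rfl⟩ := yy_surj hG y
  rcases GFA_five hG h c hc _ hm with h1 | h1
  · exact Sum.inr_ne_inl h1
  · exact Sum.inr_ne_inl h1

theorem GFA_t2 (hG : Grp H s sg) (h h' : H) (y : YY sg) (h1 : (GG hG).m (Sum.inl h) (Sum.inl h') ≠ 0)
    (h2 : (GG hG).m (Sum.inl h) (Sum.inr y) ≠ 0) (h3 : (GG hG).m (Sum.inl h') (Sum.inr y) ≠ 0) : False := by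
  obtain ⟨c, hc, h4⟩ := GFA_A1 hG h h' h1
  obtain ⟨c1, hc1, h5⟩ := GFA_A2 hG h y h2
  obtain ⟨c2, hc2, h6⟩ := GFA_A2 hG h' y h3
  obtain ⟨h7, h8⟩ := yy_eq hG h h' c1 c2 hc1 hc2 (h5.symm.trans h6)
  rcases h8 with h8 | h8
  · exact mul_s_ne hG h c (h4.symm.trans h8)
  · have h9 : s c = s c1 := mul_left_cancel (h4.symm.trans h8)
    exact hc (GFA_s_inj hG c c1 h9 ▸ hc1)

theorem GFA_t3 (hG : Grp H s sg) (h h' h'' : H) (h1 : (GG hG).m (Sum.inl h) (Sum.inl h') ≠ 0)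
    (h2 : (GG hG).m (Sum.inl h') (Sum.inl h'') ≠ 0) (h3 : (GG hG).m (Sum.inl h) (Sum.inl h'') ≠ 0) : False := by
  obtain ⟨c, -, h4⟩ := GFA_A1 hG h h' h1
  obtain ⟨c1, -, h5⟩ := GFA_A1 hG h' h'' h2
  obtain ⟨c2, -, h6⟩ := GFA_A1 hG h h'' h3
  have h7 := sg_one_iff hG h c
  have h8 := sg_one_iff hG h' c1
  have h9 := sg_one_iff hG h c2
  rw [← h4] at h7
  rw [← h5] at h8
  rw [← h6] at h9
  tauto

end

theorem GFA : GFA_stmt := by
  intro H _ _ s sg hG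
  refine ⟨fun h c => ⟨GFA_ne_nb hG h c, GFA_m_nb hG h c, ?_⟩, GFA_nb_inj hG, GFA_s_inj hG, GFA_four hG,
    GFA_five hG, ?_, yy_surj hG, fun h c hc => ⟨yy_mul hG h c hc, mul_s_ne hG h c⟩⟩
  · rw [(GG hG).symm]
    exact GFA_m_nb hG h c
  · rintro (h | y) (h' | y') (h'' | y'') h1 h2 h3
    · exact GFA_t3 hG h h' h'' h1 h2 h3
    · exact GFA_t2 hG h h' y'' h1 h3 h2
    · exact GFA_t2 hG h h'' y' h3 h1 (by rw [(GG hG).symm]; exact h2)
    · exact GFA_A3 hG _ _ h2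
    · exact GFA_t2 hG h' h'' y h2 (by rw [(GG hG).symm]; exact h1) (by rw [(GG hG).symm]; exact h3)
    · exact GFA_A3 hG _ _ h3
    · exact GFA_A3 hG _ _ h1
    · exact GFA_A3 hG _ _ h1

end Pool.Agent.NTA
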